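import Pool.Agent.Helper93_FL.BStmts

/-!
# F1: basic operations on conditions
-/

open MeasureTheory Set

namespace Pool.Agent.FL.H94

open Pool.Agent.FL

variable {I : Type} [LinearOrder I]

theorem mem_restr_body (p : Cond I) (J : Set I) (y : Pt I) :
    y ∈ (p.restr J).body ↔ ∀ i ∈ J, y i ∈ FL.body (p.T i y) := by
  constructor
  · intro h i hi
    have h1 := h i
    simpa [Cond.restr, hi] using h1
  · intro h i
    by_cases hi : i ∈ J
    · simpa [Cond.restr, hi] using h i hi
    · simp [Cond.restr, hi]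

theorem restr_below (p : Cond I) (J : Set I) : (p.restr J).Below J := by
  intro i hi y
  simp [Cond.restr, hi]

theorem le_restr (p : Cond I) (J : Set I) : p ≤ p.restr J := by
  intro y hy
  rw [mem_restr_body]
  intro i _
  exact hy i

theorem restr_mono [WellFoundedLT I] {J : Set I} (hJ : IsLowerSet J) {p q : Cond I} (h : q ≤ p) :
    q.restr J ≤ p.restr J := by
  intro y hy
  rw [mem_restr_body] at hy ⊢
  obtain ⟨y', h1, h2⟩ := q.exists_ext J hJ y hy
  intro i hi
  have h3 := h h1 i
  rwa [h2 i hi, p.T_congr (y' := y) (fun j hj => h2 j (hJ hj.le hi))] at h3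

theorem below_depOn {J : Set I} (hJ : IsLowerSet J) {p : Cond I} (hp : p.Below J) :
    DepOn J p.body := by
  have key : ∀ y y' : Pt I, (∀ i ∈ J, y i = y' i) → y ∈ p.body → y' ∈ p.body := by
    intro y y' h hy i
    by_cases hi : i ∈ J
    · rw [← h i hi, p.T_congr (y' := y) (fun j hj => (h j (hJ hj.le hi)).symm)]
      exact hy i
    · rw [hp i hi]
      simp
  intro y y' h
  exact ⟨key y y' h, key y' y (fun i hi => (h i hi).symm)⟩

theorem restr_le {J : Set I} {p : Cond I} (hp : p.Below J) : p.restr J ≤ p := by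
  intro y hy
  rw [mem_restr_body] at hy
  intro i
  by_cases hi : i ∈ J
  · exact hy i hi
  · rw [hp i hi]
    simp

theorem mem_glue_body (r p : Cond I) (J : Set I) (y : Pt I) :
    y ∈ (Cond.glue r p J).body ↔ (∀ i ∈ J, y i ∈ FL.body (r.T i y)) ∧
      ∀ i, i ∉ J → y i ∈ FL.body (p.T i y) := by
  constructor
  · intro h
    refine ⟨fun i hi => ?_, fun i hi => ?_⟩
    · have := h i
      simpa [Cond.glue, hi] using this
    · have := h i
      simpa [Cond.glue, hi] using this
  · rintro ⟨h1, h2⟩ i
    by_cases hi : i ∈ J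
    · simpa [Cond.glue, hi] using h1 i hi
    · simpa [Cond.glue, hi] using h2 i hi

theorem mem_body_of_below {J : Set I} {r : Cond I} (hr : r.Below J) {y : Pt I}
    (h : ∀ i ∈ J, y i ∈ FL.body (r.T i y)) : y ∈ r.body := by
  intro i
  by_cases hi : i ∈ J
  · exact h i hi
  · rw [hr i hi]
    simp

theorem glue_le_left {J : Set I} {r p : Cond I} (hr : r.Below J) : Cond.glue r p J ≤ r := by
  intro y hy
  rw [mem_glue_body] at hy
  exact mem_body_of_below hr hy.1

theorem glue_le_right {J : Set I} {r p : Cond I} (hr : r.Below J) (h : r ≤ p.restr J) :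
    Cond.glue r p J ≤ p := by
  intro y hy
  have h1 : y ∈ (p.restr J).body := h (glue_le_left hr hy)
  rw [mem_restr_body] at h1
  rw [mem_glue_body] at hy
  intro i
  by_cases hi : i ∈ J
  · exact h1 i hi
  · exact hy.2 i hi

theorem le_glue_restr {J : Set I} {r p : Cond I} : r ≤ (Cond.glue r p J).restr J := by
  intro y hy
  rw [mem_restr_body]
  intro i hi
  have := hy i
  simpa [Cond.glue, hi] using this

theorem le_glue {J : Set I} {r p q : Cond I} (h1 : q ≤ r) (h2 : q ≤ p) :
    q ≤ Cond.glue r p J := by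
  intro y hy
  rw [mem_glue_body]
  exact ⟨fun i _ => h1 hy i, fun i _ => h2 hy i⟩

theorem glue_below {J J' : Set I} {r p : Cond I} (_hr : r.Below J) (hJJ : J ⊆ J')
    (hp : p.Below J') : (Cond.glue r p J).Below J' := by
  intro i hi y
  have hiJ : i ∉ J := fun h => hi (hJJ h)
  simp only [Cond.glue, hiJ, if_false]
  exact hp i hi y

/-- Mixing. -/
theorem exists_mix {J : Set I} (hJ : IsLowerSet J) (r : Cond I) (c : Pt I → ℕ)
    (hc : Measurable c) (C : Set I) (hC : C.Countable) (hCJ : C ⊆ J) (hd : DepFun C c)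
    (P : ℕ → Cond I) : ∃ q : Cond I,
      (∀ i ∈ J, ∀ y, q.T i y = r.T i y) ∧ ∀ i, i ∉ J → ∀ y, q.T i y = (P (c y)).T i y := by
  classical
  refine ⟨⟨fun i y => if i ∈ J then r.T i y else (P (c y)).T i y,
    r.S ∪ C ∪ ⋃ n, (P n).S, ?_, ?_, ?_, ?_, ?_⟩, ?_, ?_⟩
  · intro i y
    split_ifs
    · exact r.good i y
    · exact (P (c y)).good i y
  · exact (r.scount.union hC).union (Set.countable_iUnion fun n => (P n).scount)
  · intro i hi y
    simp only [Set.mem_union, Set.mem_iUnion, not_or, not_exists] at hi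
    rw [r.full' i hi.1.1, (P (c y)).full' i (hi.2 _), ite_self]
  · intro i y y' h
    by_cases hi : i ∈ J
    · simp only [hi, if_true]
      exact r.dep i y y' fun j hj hji => h j (Or.inl (Or.inl hj)) hji
    · simp only [hi, if_false]
      have hcc : c y = c y' := by
        apply hd
        intro j hj
        apply h j (Or.inl (Or.inr hj))
        by_contra hji
        exact hi (hJ (not_lt.1 hji) (hCJ hj))
      rw [hcc]
      exact (P (c y')).dep i y y' fun j hj hji =>
        h j (Or.inr (Set.mem_iUnion.2 ⟨_, hj⟩)) hji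
  · intro i
    by_cases hi : i ∈ J
    · simpa [hi] using r.meas i
    · simp only [hi, if_false]
      intro B hB
      have : (fun y => (P (c y)).T i y) ⁻¹' B = ⋃ n, (c ⁻¹' {n}) ∩ ((P n).T i ⁻¹' B) := by
        ext y
        simp
      rw [this]
      exact MeasurableSet.iUnion fun n =>
        (hc (measurableSet_singleton n)).inter ((P n).meas i hB)
  · intro i hi y
    simp [hi]
  · intro i hi y
    simp [hi]

omit [LinearOrder I] in
/-- A measurable set depends on countably many coordinates. -/
theorem exists_countable_depOn {A : Set (Pt I)} (hA : MeasurableSet A) :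
    ∃ C : Set I, C.Countable ∧ DepOn C A := by
  have h0 : (MeasurableSpace.pi : MeasurableSpace (Pt I)) =
      MeasurableSpace.generateFrom
        {B : Set (Pt I) | ∃ (i : I) (s : Set Br), MeasurableSet s ∧ B = {y | y i ∈ s}} := by
    apply le_antisymm
    · apply iSup_le
      intro i
      rintro B ⟨s, hs, rfl⟩
      exact MeasurableSpace.measurableSet_generateFrom ⟨i, s, hs, rfl⟩
    · apply MeasurableSpace.generateFrom_le
      rintro B ⟨i, s, hs, rfl⟩
      exact measurable_pi_apply i hs
  have hA2 : @MeasurableSet _ (MeasurableSpace.generateFrom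
        {B : Set (Pt I) | ∃ (i : I) (s : Set Br), MeasurableSet s ∧ B = {y | y i ∈ s}}) A := by
    rw [← h0]
    exact hA
  clear hA h0
  induction A, hA2 using MeasurableSpace.generateFrom_induction with
  | hC B hB =>
    obtain ⟨i, s, _, rfl⟩ := hB
    refine ⟨{i}, Set.countable_singleton i, ?_⟩
    intro y y' h
    simp only [Set.mem_ofPred_eq]
    rw [h i rfl]
  | empty => exact ⟨∅, Set.countable_empty, fun y y' _ => Iff.rfl⟩
  | compl B _ ih =>
    obtain ⟨C, h1, h2⟩ := ih
    exact ⟨C, h1, fun y y' h => not_congr (h2 y y' h)⟩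
  | iUnion f _ ih =>
    choose C h1 h2 using ih
    refine ⟨⋃ n, C n, Set.countable_iUnion h1, fun y y' h => ?_⟩
    simp only [Set.mem_iUnion]
    exact exists_congr fun n => h2 n y y' fun i hi => h i (Set.mem_iUnion.2 ⟨n, hi⟩)

omit [LinearOrder I] in
theorem exists_countable_depOn_subset {J : Set I} {A : Set (Pt I)} (hA : MeasurableSet A)
    (hd : DepOn J A) : ∃ C ⊆ J, C.Countable ∧ DepOn C A := by
  classical
  obtain ⟨C, h1, h2⟩ := exists_countable_depOn hA
  refine ⟨C ∩ J, Set.inter_subset_right, h1.mono Set.inter_subset_left, ?_⟩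
  intro y y' h
  have ha : y ∈ A ↔ glueP J y y' ∈ A := by
    apply hd
    intro i hi
    simp [glueP, hi]
  have hb : glueP J y y' ∈ A ↔ y' ∈ A := by
    apply h2
    intro i hi
    by_cases hiJ : i ∈ J
    · simpa [glueP, hiJ] using h i ⟨hi, hiJ⟩
    · simp [glueP, hiJ]
  exact ha.trans hb

/-- F1. -/
theorem api : ApiStmt := by
  intro I _ _ J hJ
  refine ⟨fun p y => mem_restr_body p J y, fun p => ⟨restr_below p J, le_restr p J⟩,
    fun p q h => restr_mono hJ h, fun p hp => ⟨below_depOn hJ hp, restr_le hp⟩, ?_, ?_, ?_, ?_⟩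
  · intro r p hr h
    exact ⟨glue_le_right hr h, glue_le_left hr, le_glue_restr, fun q h1 h2 => le_glue h1 h2,
      fun J' h1 h2 => glue_below hr h1 h2⟩
  · intro r c hc C hC hCJ hd P
    exact exists_mix hJ r c hc C hC hCJ hd P
  · intro A hA hd
    exact exists_countable_depOn_subset hA hd
  · intro p y hy
    exact p.exists_ext J hJ y hy

end Pool.Agent.FL.H94
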