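import Pool.Agent.Helper93_FL.BStmts

/-!
# F6: fusion
-/

open MeasureTheory Set

namespace Pool.Agent.FL.H94

open Pool.Agent.FL

/-- Dependent choice with a counter. -/
theorem exists_seq_step {α : Type*} {P : ℕ → α → Prop} {R : ℕ → α → α → Prop} (a0 : α)
    (h0 : P 0 a0) (hs : ∀ m a, P m a → ∃ b, P (m + 1) b ∧ R m a b) :
    ∃ f : ℕ → α, f 0 = a0 ∧ (∀ m, P m (f m)) ∧ ∀ m, R m (f m) (f (m + 1)) := by
  choose! g hg1 hg2 using hs
  let f : ℕ → α := fun m => Nat.rec a0 (fun m a => g m a) m
  have hf : ∀ m, P m (f m) := by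
    intro m
    induction m with
    | zero => exact h0
    | succ m ih => exact hg1 m _ ih
  exact ⟨f, rfl, hf, fun m => hg2 m _ (hf m)⟩

/-- State of the fusion. -/
structure St (I : Type) [LinearOrder I] where
  q : Cond I
  F : Finset I
  n : ℕ
  h : ℕ → ℕ → Option I

theorem NormGE.mono {T : Set Node} {n n' k : ℕ} (h : NormGE T n k) (hn : n ≤ n') :
    NormGE T n' k := fun σ hσ hl => h σ hσ (le_trans hn hl)

theorem SameUpTo.mono {T T' : Set Node} {n n' : ℕ} (h : SameUpTo T T' n) (hn : n' ≤ n) :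
    SameUpTo T T' n' := fun σ hσ => h σ (le_trans hσ hn)

theorem SameUpTo.trans {T T' T'' : Set Node} {n : ℕ} (h : SameUpTo T T' n)
    (h' : SameUpTo T' T'' n) : SameUpTo T T'' n := fun σ hσ => (h σ hσ).trans (h' σ hσ)

theorem suc_eq_of_same {T T' : Set Node} {n : ℕ} (h : SameUpTo T T' n) {σ : Node}
    (hσ : σ.length < n) : suc T σ = suc T' σ := by
  ext a
  rw [mem_suc, mem_suc, h (σ ++ [a]) (by simp; omega)]

/-- Combining the two steps. -/
theorem norm_combine {T1 T2 : Set Node} {n n' k : ℕ}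
    (h1 : NormGE T1 n k) (h2 : SameUpTo T2 T1 n') (h3 : NormGE T2 n' k) : NormGE T2 n k := by
  intro σ hσ hl
  by_cases hn : n' ≤ σ.length
  · exact h3 σ hσ hn
  · push Not at hn
    rw [suc_eq_of_same h2 hn]
    exact h1 σ ((h2 σ hn.le).1 hσ) hl

/-- A decreasing sequence of good trees which stabilise level by level has a good limit. -/
theorem good_limit (T : ℕ → Set Node) (nn : ℕ → ℕ) (m0 : ℕ)
    (hgood : ∀ m, Good (T m)) (hdec : ∀ m, T (m + 1) ⊆ T m)
    (hn : ∀ m, nn m < nn (m + 1))
    (hsame : ∀ m, m0 ≤ m → SameUpTo (T (m + 1)) (T m) (nn m))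
    (hnorm : ∀ m, m0 ≤ m → NormGE (T (m + 1)) (nn m) (m + 2)) :
    Good (⋂ m, T m) := by
  have hanti : ∀ m m', m ≤ m' → T m' ⊆ T m := by
    intro m m' h
    induction m', h using Nat.le_induction with
    | base => exact Set.Subset.refl _
    | succ k _ ih => exact (hdec k).trans ih
  have hsm : StrictMono nn := strictMono_nat_of_lt_succ hn
  have hsame2 : ∀ m m', m0 ≤ m → m ≤ m' → SameUpTo (T m') (T m) (nn m) := by
    intro m m' hm h
    induction m', h using Nat.le_induction with
    | base => exact fun σ _ => Iff.rfl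
    | succ k hk ih =>
      exact SameUpTo.trans (SameUpTo.mono (hsame k (le_trans hm hk)) (hsm.monotone hk)) ih
  have hlim : ∀ m, m0 ≤ m → SameUpTo (⋂ m, T m) (T m) (nn m) := by
    intro m hm σ hσ
    rw [Set.mem_iInter]
    constructor
    · intro h
      exact h m
    · intro h m'
      rcases le_total m m' with hmm | hmm
      · exact (hsame2 m m' hm hmm σ hσ).2 h
      · exact hanti m' m hmm h
  have hgeq : ∀ m, m ≤ nn m := fun m => hsm.le_apply
  refine ⟨?_, ?_, ?_, ?_, ?_⟩
  · exact Set.mem_iInter.2 fun m => (hgood m).nil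
  · intro σ a h
    exact Set.mem_iInter.2 fun m => (hgood m).down σ a (Set.mem_iInter.1 h m)
  · intro σ a h
    exact (hgood 0).bdd σ a (Set.mem_iInter.1 h 0)
  · intro σ hσ
    have hm0 : m0 ≤ m0 + (σ.length + 1) := by omega
    have hl : σ.length < nn (m0 + (σ.length + 1)) :=
      lt_of_lt_of_le (by omega) (hgeq _)
    rw [suc_eq_of_same (hlim _ hm0) hl]
    exact (hgood _).ext σ (Set.mem_iInter.1 hσ _)
  · intro k
    refine ⟨nn (m0 + k), fun σ hσ hl => ?_⟩
    -- find the stage
    have hex : ∃ m, m0 + k ≤ m ∧ nn m ≤ σ.length ∧ σ.length < nn (m + 1) := by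
      classical
      have h1 : ∃ m, σ.length < nn m := ⟨σ.length + 1, lt_of_lt_of_le (by omega) (hgeq _)⟩
      have h2 := Nat.find_spec h1
      have h3 : ∀ m, m < Nat.find h1 → ¬ σ.length < nn m := fun m hm => Nat.find_min h1 hm
      have h4 : m0 + k < Nat.find h1 := by
        by_contra hc
        push Not at hc
        have := hsm.monotone hc
        omega
      refine ⟨Nat.find h1 - 1, by omega, ?_, ?_⟩
      · have := h3 (Nat.find h1 - 1) (by omega)
        omega
      · have : Nat.find h1 - 1 + 1 = Nat.find h1 := by omega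
        rw [this]
        exact h2
    obtain ⟨m, hm1, hm2, hm3⟩ := hex
    rw [suc_eq_of_same (hlim (m + 1) (by omega)) hm3]
    refine le_trans (Nat.pow_le_pow_right (by omega) ?_)
      (hnorm m (by omega) σ (Set.mem_iInter.1 hσ _) hm2)
    omega

/-- F6. -/
theorem fus_core : FusStmt := by
  classical
  intro I _ _ J hJ N Ni D hNJ hNS hNiJ hSL hIN p hp
  -- enumeration of the supports
  have hen : ∀ q : Cond I, ∃ f : ℕ → Option I, ∀ i, i ∈ q.S ∩ J ↔ ∃ b, f b = some i := by
    intro q
    have hc : (q.S ∩ J).Countable := q.scount.mono Set.inter_subset_left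
    have : Encodable (↥(q.S ∩ J)) := hc.toEncodable
    refine ⟨fun b => (Encodable.decode (α := ↥(q.S ∩ J)) b).map Subtype.val, fun i => ?_⟩
    constructor
    · intro hi
      refine ⟨Encodable.encode (⟨i, hi⟩ : ↥(q.S ∩ J)), ?_⟩
      simp
    · rintro ⟨b, hb⟩
      rw [Option.map_eq_some_iff] at hb
      obtain ⟨x, _, rfl⟩ := hb
      exact x.2
  choose en hen using hen
  -- one step
  have step : ∀ (m : ℕ) (s : St I),
      (s.q ∈ N ∧ (s.F : Set I) ⊆ Ni ∧ (∀ j ∈ s.F, ∀ y ∈ s.q.body, NormGE (s.q.T j y) s.n (m + 3)) ∧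
        (∀ a ≤ m, ∀ b j, s.h a b = some j → j ∈ Ni) ∧ s.h m = en s.q) →
      ∃ s' : St I, (s'.q ∈ N ∧ (s'.F : Set I) ⊆ Ni ∧
        (∀ j ∈ s'.F, ∀ y ∈ s'.q.body, NormGE (s'.q.T j y) s'.n (m + 1 + 3)) ∧
        (∀ a ≤ m + 1, ∀ b j, s'.h a b = some j → j ∈ Ni) ∧ s'.h (m + 1) = en s'.q) ∧
        (s'.q ≤ s.q ∧ s.F ⊆ s'.F ∧ (∀ j, s.h (Nat.unpair m).1 (Nat.unpair m).2 = some j → j ∈ s'.F) ∧
          s.n < s'.n ∧
          (∀ j ∈ s.F, ∀ y ∈ s'.q.body, SameUpTo (s'.q.T j y) (s.q.T j y) s.n ∧
            NormGE (s'.q.T j y) s.n (m + 2)) ∧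
          (∃ E : Set (Cond I), E.Finite ∧ E ⊆ D m ∩ N ∧ s'.q.body ⊆ ⋃ d ∈ E, d.body) ∧
          (∀ a ≤ m, s'.h a = s.h a)) := by
    rintro m s ⟨h1, h2, h3, h4, h5⟩
    -- introduction of the new coordinate
    have hA : ∃ (F' : Finset I) (q' : Cond I) (n' : ℕ), (F' : Set I) ⊆ Ni ∧ s.F ⊆ F' ∧
        (∀ j, s.h (Nat.unpair m).1 (Nat.unpair m).2 = some j → j ∈ F') ∧ q' ∈ N ∧ q' ≤ s.q ∧
        s.n ≤ n' ∧ (∀ j ∈ F', ∀ y ∈ q'.body, NormGE (q'.T j y) n' (m + 3)) ∧
        (∀ j ∈ s.F, ∀ y ∈ q'.body, SameUpTo (q'.T j y) (s.q.T j y) s.n ∧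
          NormGE (q'.T j y) s.n (m + 2)) := by
      have hold : ∀ j ∈ s.F, ∀ y ∈ s.q.body, SameUpTo (s.q.T j y) (s.q.T j y) s.n ∧
          NormGE (s.q.T j y) s.n (m + 2) := by
        intro j hj y hy
        refine ⟨fun _ _ => Iff.rfl, fun σ hσ hl => ?_⟩
        refine le_trans (Nat.pow_le_pow_right (by omega) (by omega)) (h3 j hj y hy σ hσ hl)
      rcases hh : s.h (Nat.unpair m).1 (Nat.unpair m).2 with _ | j0
      · exact ⟨s.F, s.q, s.n, h2, Finset.Subset.refl _, fun j hj => by simp at hj, h1,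
          le_refl _, le_refl _, h3, hold⟩
      · by_cases hj0 : j0 ∈ s.F
        · refine ⟨s.F, s.q, s.n, h2, Finset.Subset.refl _, fun j hj => ?_, h1,
            le_refl _, le_refl _, h3, hold⟩
          simp only [Option.some.injEq] at hj
          rwa [← hj]
        · have hj0N : j0 ∈ Ni := h4 _ (Nat.unpair_left_le m) _ _ hh
          obtain ⟨q', g1, g2, g3, n', g4, g5, g6⟩ := hIN s.q h1 s.F h2 j0 hj0N hj0 s.n (m + 3)
            (by omega) h3
          refine ⟨insert j0 s.F, q', n', ?_, Finset.subset_insert _ _, ?_, g1, g2, g4, ?_, ?_⟩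
          · intro i hi
            rw [Finset.mem_coe, Finset.mem_insert] at hi
            rcases hi with rfl | hi
            · exact hj0N
            · exact h2 hi
          · intro j hj
            simp only [Option.some.injEq] at hj
            rw [← hj]
            exact Finset.mem_insert_self _ _
          · intro j hj y hy
            rcases Finset.mem_insert.1 hj with rfl | hj
            · exact g5 y hy
            · exact g6 j hj y hy
          · intro j hj y hy
            exact g3 j hj y hy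
    obtain ⟨F', q', n', a1, a2, a3, a4, a5, a6, a7, a8⟩ := hA
    obtain ⟨q2, b1, b2, b3, ⟨n2, b4⟩, E, b5, b6, b7⟩ := hSL q' a4 F' a1 n' (m + 3) (m + 4) m
      (by omega) a7
    refine ⟨⟨q2, F', max n2 (n' + 1), fun a => if a = m + 1 then en q2 else s.h a⟩,
      ⟨b1, a1, ?_, ?_, ?_⟩, le_trans b2 a5, a2, a3, ?_, ?_, ⟨E, b5, b6, b7⟩, ?_⟩
    · intro j hj y hy
      exact NormGE.mono (b4 j hj y hy) (le_max_left _ _)
    · intro a ha b j hj
      by_cases ham : a = m + 1
      · simp only [ham, if_true] at hj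
        exact hNS q2 b1 ((hen q2 j).2 ⟨b, hj⟩)
      · simp only [ham, if_false] at hj
        exact h4 a (by omega) b j hj
    · simp
    · exact lt_of_lt_of_le (by omega : s.n < n' + 1) (le_max_right _ _)
    · intro j hj y hy
      have hc1 := a8 j hj y (b2 hy)
      have hc2 := b3 j (a2 hj) y hy
      exact ⟨SameUpTo.trans (SameUpTo.mono hc2.1 a6) hc1.1, norm_combine hc1.2 hc2.1 hc2.2⟩
    · intro a ha
      have : a ≠ m + 1 := by omega
      simp [this]
  obtain ⟨f, hf0, hfP, hfR⟩ := exists_seq_step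
    (⟨p, ∅, 0, fun a => if a = 0 then en p else fun _ => none⟩ : St I)
    ⟨hp, by simp, by simp, by
      intro a ha b j hj
      have : a = 0 := by omega
      subst this
      simp only [if_true] at hj
      exact hNS p hp ((hen p j).2 ⟨b, hj⟩), by simp⟩ step
  -- properties of the sequence
  have hqdec : ∀ m, (f (m + 1)).q ≤ (f m).q := fun m => (hfR m).1
  have hFmono : ∀ m m', m ≤ m' → (f m).F ⊆ (f m').F := by
    intro m m' h
    induction m', h using Nat.le_induction with
    | base => exact Finset.Subset.refl _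
    | succ k _ ih => exact ih.trans (hfR k).2.1
  have hhist : ∀ a m, a ≤ m → (f m).h a = en (f a).q := by
    intro a m h
    induction m, h using Nat.le_induction with
    | base => exact (hfP a).2.2.2.2
    | succ k hk ih => rw [(hfR k).2.2.2.2.2.2 a hk, ih]
  have hcatch : ∀ a i, i ∈ (f a).q.S ∩ J → ∃ m, i ∈ (f m).F := by
    intro a i hi
    obtain ⟨b, hb⟩ := (hen _ i).1 hi
    refine ⟨Nat.pair a b + 1, (hfR (Nat.pair a b)).2.2.1 i ?_⟩
    rw [Nat.unpair_pair]
    rw [hhist a _ (Nat.left_le_pair a b)]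
    exact hb
  -- the limit
  let T : I → Pt I → Set Node := fun i y => ⋂ m, (f m).q.T i y
  have hT : ∀ i y, T i y = ⋂ m, (f m).q.T i y := fun i y => rfl
  have hTfull : ∀ i y, (∀ m, (f m).q.T i y = full) → T i y = full := by
    intro i y h
    rw [hT]
    ext σ
    simp [h]
  obtain ⟨q, _, hq2, hq3⟩ := Cond.exists_of_raw T (⋃ m, (f m).q.S)
    (Set.countable_iUnion fun m => (f m).q.scount)
    (by
      intro i hi y
      rw [Set.mem_iUnion, not_exists] at hi
      exact hTfull i y fun m => (f m).q.full' i (hi m) y)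
    (by
      intro i y y' h
      rw [hT, hT]
      apply Set.iInter_congr
      intro m
      exact (f m).q.dep i y y' fun j hj hji => h j (Set.mem_iUnion.2 ⟨m, hj⟩) hji)
    (by
      intro i
      rw [measurable_set_iff]
      intro σ
      have : (fun y => σ ∈ T i y) = fun y => ∀ m, σ ∈ (f m).q.T i y := by
        funext y
        rw [hT]
        simp
      rw [this]
      exact Measurable.forall fun m => measurable_set_iff.1 ((f m).q.meas i) σ)
  have key : ∀ y ∈ q.body, ∀ i, Good (T i y) ∧ y i ∈ FL.body (T i y) := by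
    intro y hy i
    induction i using (wellFounded_lt (α := I)).induction with
    | h i ih =>
      have hgood : Good (T i y) := by
        have hext : ∀ m, ∃ y' ∈ (f m).q.body, ∀ j ∈ Set.Iio i, y' j = y j := by
          intro m
          apply (f m).q.exists_ext (Set.Iio i) (isLowerSet_Iio i)
          intro j hj
          exact body_mono (Set.iInter_subset _ m) (ih j hj).2
        by_cases hi : ∃ m, i ∈ (f m).F
        · obtain ⟨m0, hm0⟩ := hi
          apply good_limit (fun m => (f m).q.T i y) (fun m => (f m).n) m0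
          · intro m
            exact (f m).q.good i y
          · intro m
            obtain ⟨y', g1, g2⟩ := hext (m + 1)
            have := Cond.T_subset (hqdec m) g1 i
            rwa [(f m).q.T_congr (y' := y) (fun j hj => g2 j hj),
              (f (m + 1)).q.T_congr (y' := y) (fun j hj => g2 j hj)] at this
          · intro m
            exact (hfR m).2.2.2.1
          · intro m hm
            obtain ⟨y', g1, g2⟩ := hext (m + 1)
            have := ((hfR m).2.2.2.2.1 i (hFmono m0 m hm hm0) y' g1).1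
            rwa [(f m).q.T_congr (y' := y) (fun j hj => g2 j hj),
              (f (m + 1)).q.T_congr (y' := y) (fun j hj => g2 j hj)] at this
          · intro m hm
            obtain ⟨y', g1, g2⟩ := hext (m + 1)
            have := ((hfR m).2.2.2.2.1 i (hFmono m0 m hm hm0) y' g1).2
            rwa [(f (m + 1)).q.T_congr (y' := y) (fun j hj => g2 j hj)] at this
        · have hfull : T i y = full := by
            apply hTfull
            intro m
            by_cases hiJ : i ∈ J
            · apply (f m).q.full'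
              intro hS
              exact hi (hcatch m i ⟨hS, hiJ⟩)
            · exact hNJ _ (hfP m).1 i hiJ y
          rw [hfull]
          exact good_full
      refine ⟨hgood, ?_⟩
      have := hy i
      rwa [hq2 i y hgood] at this
  have hle : ∀ m, q ≤ (f m).q := by
    intro m y hy i
    exact body_mono (Set.iInter_subset _ m) (key y hy i).2
  refine ⟨q, ?_, ?_, ?_⟩
  · have := hle 0
    rwa [hf0] at this
  · intro i hi y
    have hfull : T i y = full := hTfull i y fun m => hNJ _ (hfP m).1 i hi y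
    rw [hq2 i y (by rw [hfull]; exact good_full), hfull]
  · intro i
    obtain ⟨E, h1, h2, h3⟩ := (hfR i).2.2.2.2.2.1
    exact ⟨E, h1, h2, fun y hy => h3 (hle (i + 1) hy)⟩

theorem fus (_hA : ApiStmt) : FusStmt := fus_core

end Pool.Agent.FL.H94
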