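import Pool.Agent.Helper93_FL.BStmts

/-!
# F7: the induction
-/

open MeasureTheory Set

namespace Pool.Agent.FL.H94

open Pool.Agent.FL

theorem brw_of (hF : FusStmt) (I : Type) [LinearOrder I] [WellFoundedLT I] (J : Set I)
    (hJ : IsLowerSet J) (hSL : SL I J) (hIN : INTRO I J) : BRw I J := by
  intro p hp D hD1 hD2 hD3
  obtain ⟨q, hq1, hq2, hq3⟩ := hF I J hJ {q | q ≤ p ∧ q.Below J} J D
    (fun q hq => hq.2) (fun q _ => Set.inter_subset_right) (Set.Subset.refl _)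
    (by
      rintro q ⟨hqp, hqJ⟩ F hFJ n k K' i hk hnorm
      obtain ⟨q', h1, h2, h3, h4, E, h5, h6, h7⟩ := hSL q hqJ F hFJ n k K' hk hnorm
        {d | d ∈ D i ∧ d ≤ q} (fun d hd => ⟨hd.2, (hD1 i d hd.1).2⟩)
        (fun d hd e he heJ => ⟨hD2 i d hd.1 e he heJ, le_trans he hd.2⟩)
        (fun r hr hrJ => by
          obtain ⟨d, hd1, hd2⟩ := hD3 i r (le_trans hr hqp) hrJ
          exact ⟨d, ⟨hd1, le_trans hd2 hr⟩, hd2⟩)
      refine ⟨q', ⟨le_trans h1 hqp, h2⟩, h1, h3, h4, E, h5, ?_, h7⟩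
      intro d hd
      exact ⟨(h6 hd).1, hD1 i d (h6 hd).1⟩)
    (by
      rintro q ⟨hqp, hqJ⟩ F hFJ j hj hjF n k hk hnorm
      obtain ⟨q', h1, h2, h3, h4⟩ := hIN q hqJ F hFJ j hj hjF n k hk hnorm
      exact ⟨q', ⟨le_trans h1 hqp, h2⟩, h1, h3, h4⟩)
    p ⟨le_refl p, hp⟩
  refine ⟨q, hq1, hq2, fun i => ?_⟩
  obtain ⟨E, h1, h2, h3⟩ := hq3 i
  exact ⟨E, h1, fun d hd => (h2 hd).1, h3⟩

theorem ind_core (hS : SLStepStmt) (hI : IntroStmt) (hF : FusStmt) : IndStmt := by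
  intro I _ _
  have key : ∀ J : Set I, IsLowerSet J → (∀ j ∈ J, SL I (Set.Iio j) ∧ BRw I (Set.Iio j)) →
      SL I J ∧ BRw I J ∧ INTRO I J := by
    intro J hJ h
    have h1 : SL I J := hS I J hJ (fun j hj => (h j hj).1) (fun j hj => (h j hj).2)
    have h2 : INTRO I J := hI I J hJ (fun j hj => (h j hj).1)
    exact ⟨h1, brw_of hF I J hJ h1 h2, h2⟩
  have main : ∀ j : I, SL I (Set.Iio j) ∧ BRw I (Set.Iio j) := by
    intro j
    induction j using (wellFounded_lt (α := I)).induction with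
    | h j ih =>
      have h1 := key (Set.Iio j) (isLowerSet_Iio j) (fun i hi => ih i hi)
      exact ⟨h1.1, h1.2.1⟩
  intro J hJ
  exact key J hJ (fun j _ => main j)

/-- F7. -/
theorem ind (_hP : PMStmt) (_hA : ApiStmt) (_hC : ConstStmt) (hS : SLStepStmt) (hI : IntroStmt)
    (hF : FusStmt) : IndStmt := ind_core hS hI hF

end Pool.Agent.FL.H94
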