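import Pool.Agent.Helper93_FL.BStmts

/-!
# F8: generic point over a countable hull
-/

open MeasureTheory Set

namespace Pool.Agent.FL.H94

open Pool.Agent.FL

theorem countable_lists {W : Type*} {X : Set W} (hX : X.Countable) :
    {l : List W | ∀ x ∈ l, x ∈ X}.Countable := by
  have : Countable X := hX.to_subtype
  have h : {l : List W | ∀ x ∈ l, x ∈ X} ⊆ Set.range (fun l : List X => l.map Subtype.val) := by
    intro l hl
    refine ⟨l.pmap (fun x hx => ⟨x, hx⟩) hl, ?_⟩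
    simp [List.map_pmap]
  exact (Set.countable_range _).mono h

theorem countable_finsets {W : Type*} {X : Set W} (hX : X.Countable) :
    {F : Finset W | (F : Set W) ⊆ X}.Countable := by
  classical
  have h : {F : Finset W | (F : Set W) ⊆ X} ⊆
      (fun l : List W => l.toFinset) '' {l : List W | ∀ x ∈ l, x ∈ X} := by
    intro F hF
    refine ⟨F.toList, fun x hx => hF (by simpa using hx), by simp⟩
  exact ((countable_lists hX).image _).mono h

theorem gpl_core (hI : IndStmt) (hF : FusStmt) : GplStmt := by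
  classical
  intro I _ _ W cd ix hcd hix ops D hDo hDd p W0 hW0
  obtain ⟨hSL, _, hIN⟩ := hI I Set.univ isLowerSet_univ
  have hbel : ∀ q : Cond I, q.Below Set.univ := fun q i hi => absurd (Set.mem_univ i) hi
  -- choice functions
  have hS1 : ∀ (q : Cond I) (F : Finset I) (l : List W) (n k K' i : ℕ), ∃ (q' : Cond I)
      (E : Set (Cond I)), E.Finite ∧
      (1 ≤ k → (∀ j ∈ F, ∀ y ∈ q.body, NormGE (q.T j y) n k) →
        q' ≤ q ∧ (∀ j ∈ F, ∀ y ∈ q'.body, SameUpTo (q'.T j y) (q.T j y) n ∧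
          NormGE (q'.T j y) n (k - 1)) ∧
        (∃ n', ∀ j ∈ F, ∀ y ∈ q'.body, NormGE (q'.T j y) n' K') ∧
        E ⊆ D i l ∧ q'.body ⊆ ⋃ d ∈ E, d.body) := by
    intro q F l n k K' i
    by_cases h : 1 ≤ k ∧ (∀ j ∈ F, ∀ y ∈ q.body, NormGE (q.T j y) n k)
    · obtain ⟨q', h1, _, h3, h4, E, h5, h6, h7⟩ := hSL q (hbel q) F (Set.subset_univ _) n k K' h.1
        h.2 {d | d ∈ D i l ∧ d ≤ q} (fun d hd => ⟨hd.2, hbel d⟩)
        (fun d hd e he _ => ⟨hDo i l d hd.1 e he, le_trans he hd.2⟩)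
        (fun r hr _ => by
          obtain ⟨d, hd1, hd2⟩ := hDd i l r
          exact ⟨d, ⟨hd1, le_trans hd2 hr⟩, hd2⟩)
      exact ⟨q', E, h5, fun _ _ => ⟨h1, h3, h4, fun d hd => (h6 hd).1, h7⟩⟩
    · exact ⟨q, ∅, Set.finite_empty, fun h1 h2 => absurd ⟨h1, h2⟩ h⟩
  choose qS ES hESf hS using hS1
  have hI1 : ∀ (q : Cond I) (F : Finset I) (j : I) (n k : ℕ), ∃ q' : Cond I,
      (j ∉ F → 1 ≤ k → (∀ j' ∈ F, ∀ y ∈ q.body, NormGE (q.T j' y) n k) →
        q' ≤ q ∧ (∀ j' ∈ F, ∀ y ∈ q'.body, SameUpTo (q'.T j' y) (q.T j' y) n ∧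
          NormGE (q'.T j' y) n (k - 1)) ∧
        ∃ n' ≥ n, (∀ y ∈ q'.body, NormGE (q'.T j y) n' k) ∧
          ∀ j' ∈ F, ∀ y ∈ q'.body, NormGE (q'.T j' y) n' k) := by
    intro q F j n k
    by_cases h : j ∉ F ∧ 1 ≤ k ∧ (∀ j' ∈ F, ∀ y ∈ q.body, NormGE (q.T j' y) n k)
    · obtain ⟨q', h1, _, h3, h4⟩ := hIN q (hbel q) F (Set.subset_univ _) j (Set.mem_univ j) h.1
        n k h.2.1 h.2.2
      exact ⟨q', fun _ _ _ => ⟨h1, h3, h4⟩⟩
    · exact ⟨q, fun h1 h2 h3 => absurd ⟨h1, h2, h3⟩ h⟩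
  choose qI hIq using hI1
  -- the closure
  let Φ : Set W → Set W := fun X =>
    X ∪ (⋃ i : ℕ, (fun l => ops i l) '' {l : List W | ∀ x ∈ l, x ∈ X}) ∪
    (⋃ q ∈ cd ⁻¹' X, ix '' q.S) ∪
    (⋃ q ∈ cd ⁻¹' X, ⋃ F ∈ {F : Finset I | (F : Set I) ⊆ ix ⁻¹' X},
      ⋃ l ∈ {l : List W | ∀ x ∈ l, x ∈ X}, ⋃ n : ℕ, ⋃ k : ℕ, ⋃ K' : ℕ, ⋃ i : ℕ,
        ({cd (qS q F l n k K' i)} ∪ cd '' ES q F l n k K' i)) ∪
    (⋃ q ∈ cd ⁻¹' X, ⋃ F ∈ {F : Finset I | (F : Set I) ⊆ ix ⁻¹' X},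
      ⋃ j ∈ ix ⁻¹' X, ⋃ n : ℕ, ⋃ k : ℕ, {cd (qI q F j n k)})
  have hΦc : ∀ X : Set W, X.Countable → (Φ X).Countable := by
    intro X hX
    have hc1 : (cd ⁻¹' X).Countable := hX.preimage hcd
    have hc2 : (ix ⁻¹' X).Countable := hX.preimage hix
    have hc3 := countable_lists hX
    have hc4 := countable_finsets hc2
    refine Set.Countable.union (Set.Countable.union (Set.Countable.union (Set.Countable.union hX
      ?_) ?_) ?_) ?_
    · exact Set.countable_iUnion fun i => hc3.image _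
    · exact hc1.biUnion fun q _ => q.scount.image _
    · refine hc1.biUnion fun q _ => hc4.biUnion fun F _ => hc3.biUnion fun l _ =>
        Set.countable_iUnion fun n => Set.countable_iUnion fun k => Set.countable_iUnion fun K' =>
        Set.countable_iUnion fun i => ?_
      exact (Set.countable_singleton _).union ((hESf q F l n k K' i).countable.image _)
    · exact hc1.biUnion fun q _ => hc4.biUnion fun F _ => hc2.biUnion fun j _ =>
        Set.countable_iUnion fun n => Set.countable_iUnion fun k => Set.countable_singleton _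
  have hΦs : ∀ X : Set W, X ⊆ Φ X := fun X x hx => Or.inl (Or.inl (Or.inl (Or.inl hx)))
  let X : ℕ → Set W := fun n => Nat.rec (W0 ∪ {cd p}) (fun _ Y => Φ Y) n
  have hXs : ∀ n, X (n + 1) = Φ (X n) := fun n => rfl
  have hXc : ∀ n, (X n).Countable := by
    intro n
    induction n with
    | zero => exact hW0.union (Set.countable_singleton _)
    | succ n ih => exact hΦc _ ih
  have hXm : Monotone X := monotone_nat_of_le_succ fun n => by rw [hXs]; exact hΦs _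
  let H : Set W := ⋃ n, X n
  have hH : ∀ x, x ∈ H ↔ ∃ n, x ∈ X n := fun x => Set.mem_iUnion
  have hlist : ∀ l : List W, (∀ x ∈ l, x ∈ H) → ∃ n, ∀ x ∈ l, x ∈ X n := by
    intro l
    induction l with
    | nil => intro _; exact ⟨0, by simp⟩
    | cons a l ih =>
      intro h
      obtain ⟨n1, h1⟩ := ih fun x hx => h x (List.mem_cons_of_mem _ hx)
      obtain ⟨n2, h2⟩ := (hH a).1 (h a List.mem_cons_self)
      refine ⟨max n1 n2, fun x hx => ?_⟩
      rcases List.mem_cons.1 hx with rfl | hx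
      · exact hXm (le_max_right _ _) h2
      · exact hXm (le_max_left _ _) (h1 x hx)
  have hfin : ∀ F : Finset I, (F : Set I) ⊆ ix ⁻¹' H → ∃ n, (F : Set I) ⊆ ix ⁻¹' (X n) := by
    intro F hF
    obtain ⟨n, hn⟩ := hlist (F.toList.map ix) (by
      intro x hx
      obtain ⟨j, hj, rfl⟩ := List.mem_map.1 hx
      exact hF (by simpa using hj))
    refine ⟨n, fun j hj => hn _ (List.mem_map.2 ⟨j, by simpa using hj, rfl⟩)⟩
  have hHc : H.Countable := Set.countable_iUnion hXc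
  have hpH : cd p ∈ H := (hH _).2 ⟨0, Or.inr rfl⟩
  refine ⟨H, fun x hx => (hH _).2 ⟨0, Or.inl hx⟩, hHc, hpH, ?_, ?_⟩
  · intro i l hl
    obtain ⟨n, hn⟩ := hlist l hl
    refine (hH _).2 ⟨n + 1, ?_⟩
    rw [hXs]
    exact Or.inl (Or.inl (Or.inl (Or.inr (Set.mem_iUnion.2 ⟨i, l, hn, rfl⟩))))
  -- enumeration of the tasks
  have hLc : {l : List W | ∀ x ∈ l, x ∈ H}.Countable := countable_lists hHc
  have : Countable ↥{l : List W | ∀ x ∈ l, x ∈ H} := hLc.to_subtype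
  have : Nonempty (ℕ × ↥{l : List W | ∀ x ∈ l, x ∈ H}) := ⟨(0, ⟨[], by simp⟩)⟩
  obtain ⟨e, he⟩ := exists_surjective_nat (ℕ × ↥{l : List W | ∀ x ∈ l, x ∈ H})
  obtain ⟨q, hq1, _, hq3⟩ := hF I Set.univ isLowerSet_univ {q | cd q ∈ H} {i | ix i ∈ H}
    (fun m => D (e m).1 (e m).2.1) (fun q _ => hbel q)
    (by
      intro q hq i hi
      obtain ⟨n, hn⟩ := (hH _).1 hq
      refine (hH _).2 ⟨n + 1, ?_⟩
      rw [hXs]
      exact Or.inl (Or.inl (Or.inr (Set.mem_iUnion₂.2 ⟨q, hn, i, hi.1, rfl⟩))))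
    (Set.subset_univ _)
    (by
      intro q hq F hFN n k K' i hk hnorm
      obtain ⟨n1, hn1⟩ := (hH _).1 hq
      obtain ⟨n2, hn2⟩ := hfin F hFN
      obtain ⟨n3, hn3⟩ := hlist (e i).2.1 (e i).2.2
      have hmem : ∀ x, x ∈ ({cd (qS q F (e i).2.1 n k K' (e i).1)} ∪
          cd '' ES q F (e i).2.1 n k K' (e i).1 : Set W) → x ∈ H := by
        intro x hx
        refine (hH _).2 ⟨max n1 (max n2 n3) + 1, ?_⟩
        rw [hXs]
        refine Or.inl (Or.inr ?_)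
        refine Set.mem_iUnion₂.2 ⟨q, hXm (le_max_left _ _) hn1, Set.mem_iUnion₂.2 ⟨F, ?_,
          Set.mem_iUnion₂.2 ⟨(e i).2.1, ?_, Set.mem_iUnion.2 ⟨n, Set.mem_iUnion.2 ⟨k,
          Set.mem_iUnion.2 ⟨K', Set.mem_iUnion.2 ⟨(e i).1, hx⟩⟩⟩⟩⟩⟩⟩
        · intro j hj
          exact hXm (le_trans (le_max_left _ _) (le_max_right _ _)) (hn2 hj)
        · intro x hx
          exact hXm (le_trans (le_max_right _ _) (le_max_right _ _)) (hn3 x hx)
      obtain ⟨g1, g2, g3, g4, g5⟩ := hS q F (e i).2.1 n k K' (e i).1 hk hnorm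
      refine ⟨qS q F (e i).2.1 n k K' (e i).1, hmem _ (Or.inl rfl), g1, g2, g3,
        ES q F (e i).2.1 n k K' (e i).1, hESf _ _ _ _ _ _ _, ?_, g5⟩
      intro d hd
      exact ⟨g4 hd, hmem _ (Or.inr ⟨d, hd, rfl⟩)⟩)
    (by
      intro q hq F hFN j hj hjF n k hk hnorm
      obtain ⟨n1, hn1⟩ := (hH _).1 hq
      obtain ⟨n2, hn2⟩ := hfin F hFN
      obtain ⟨n3, hn3⟩ := (hH _).1 hj
      obtain ⟨g1, g2, g3⟩ := hIq q F j n k hjF hk hnorm
      refine ⟨qI q F j n k, ?_, g1, g2, g3⟩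
      refine (hH _).2 ⟨max n1 (max n2 n3) + 1, ?_⟩
      rw [hXs]
      refine Or.inr ?_
      refine Set.mem_iUnion₂.2 ⟨q, hXm (le_max_left _ _) hn1, Set.mem_iUnion₂.2 ⟨F, ?_,
          Set.mem_iUnion₂.2 ⟨j, ?_, Set.mem_iUnion.2 ⟨n, Set.mem_iUnion.2 ⟨k, rfl⟩⟩⟩⟩⟩
      · intro i hi
        exact hXm (le_trans (le_max_left _ _) (le_max_right _ _)) (hn2 hi)
      · exact hXm (le_trans (le_max_right _ _) (le_max_right _ _)) hn3)
    p hpH
  obtain ⟨g, hg⟩ := q.body_nonempty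
  refine ⟨g, hq1 hg, fun i l hl => ?_⟩
  obtain ⟨m, hm⟩ := he (i, ⟨l, hl⟩)
  obtain ⟨E, _, h2, h3⟩ := hq3 m
  obtain ⟨d, hd, hgd⟩ := Set.mem_iUnion₂.1 (h3 hg)
  have h4 := h2 hd
  refine ⟨d, h4.2, ?_, hgd⟩
  have h5 := h4.1
  simpa only [hm] using h5

/-- F8. -/
theorem gpl (hI : IndStmt) (hF : FusStmt) : GplStmt := gpl_core hI hF

end Pool.Agent.FL.H94
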